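import Mathlib

/-!
Kneser graphs and the xor-product of graphs.
-/

namespace Pool.Agent.Work.MP_0f7bbd_co

/-- The Kneser graph `KG(n,k)`: distinct `k`-subsets of an `n`-set are joined when disjoint. -/
def kneser (n k : ℕ) : SimpleGraph {X : Finset (Fin n) // X.card = k} where
  Adj X Y := X ≠ Y ∧ Disjoint X.1 Y.1
  symm := ⟨fun _ _ h => ⟨h.1.symm, h.2.symm⟩⟩
  loopless := ⟨fun _ h => h.1 rfl⟩

/-- The xor-product: `(g,h)` and `(g',h')` are joined when exactly one of `gg'`, `hh'` is an edge. -/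
def xorProd {α β : Type*} (G : SimpleGraph α) (H : SimpleGraph β) : SimpleGraph (α × β) where
  Adj u v := (G.Adj u.1 v.1 ∧ ¬ H.Adj u.2 v.2) ∨ (H.Adj u.2 v.2 ∧ ¬ G.Adj u.1 v.1)
  symm := ⟨fun u v h => by rwa [G.adj_comm v.1 u.1, H.adj_comm v.2 u.2]⟩
  loopless := ⟨fun u h => by simp at h⟩

end Pool.Agent.Work.MP_0f7bbd_co
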