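import Mathlib
import Pool.Agent.Work.MP_0f7bbd_co.Defs

-- merged part: Pool.Agent.Work.MP_0f7bbd_co.Perm
section
/-!
Counting linear orders in which one set precedes another.
-/

namespace Pool.Agent.Work.MP_0f7bbd_co

open Finset

/-- All elements of `A` have smaller key than all elements of `B`. -/
def Bef {α : Type*} (f : α → ℕ) (A B : Finset α) : Prop := ∀ a ∈ A, ∀ b ∈ B, f a < f b

instance {α : Type*} (f : α → ℕ) (A B : Finset α) : Decidable (Bef f A B) := by
  unfold Bef; infer_instance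

theorem exists_top {α : Type*} [DecidableEq α] (f : α → ℕ) (J : Finset α) :
    ∀ k, k ≤ J.card → ∃ R ⊆ J, R.card = k ∧ ∀ j ∈ J, j ∉ R → ∀ j' ∈ R, f j ≤ f j' := by
  intro k
  induction k with
  | zero => intro _; exact ⟨∅, by simp, by simp, by simp⟩
  | succ k ih =>
    intro hk
    obtain ⟨R, hR, hc, h⟩ := ih (by omega)
    have hne : (J \ R).Nonempty := by
      rw [← card_pos, card_sdiff_of_subset hR]; omega
    obtain ⟨x, hx, hmax⟩ := exists_max_image (J \ R) f hne
    rw [mem_sdiff] at hx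
    refine ⟨insert x R, insert_subset hx.1 hR, by rw [card_insert_of_notMem hx.2, hc], ?_⟩
    intro j hj hjn j' hj'
    rw [mem_insert, not_or] at hjn
    rcases mem_insert.1 hj' with rfl | hj'
    · exact hmax j (mem_sdiff.2 ⟨hj, hjn.2⟩)
    · exact h j hj hjn.2 j' hj'

variable {n : ℕ}

/-- The number of orders of the ground set in which `A` precedes `B`. -/
def cnt (A B : Finset (Fin n)) : ℕ :=
  (univ.filter (fun σ : Equiv.Perm (Fin n) => Bef (fun x => (σ x).val) A B)).card

theorem cnt_le {A B A' B' : Finset (Fin n)} (h : Disjoint A B) (h' : Disjoint A' B')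
    (hA : A'.card = A.card) (hB : B'.card = B.card) : cnt A B ≤ cnt A' B' := by
  let e1 : A' ≃ A := Finset.equivOfCardEq hA
  let e2 : B' ≃ B := Finset.equivOfCardEq hB
  let f : A' ⊕ B' → Fin n := Sum.elim Subtype.val Subtype.val
  let g : A' ⊕ B' → Fin n := Sum.elim (fun a => (e1 a).val) (fun b => (e2 b).val)
  have hf : Function.Injective f := by
    apply Function.Injective.sumElim Subtype.val_injective Subtype.val_injective
    intro a b hab
    exact (disjoint_left.1 h') a.2 (hab ▸ b.2)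
  have hg : Function.Injective g := by
    apply Function.Injective.sumElim (Subtype.val_injective.comp e1.injective)
      (Subtype.val_injective.comp e2.injective)
    intro a b hab
    simp only [Function.comp] at hab
    exact (disjoint_left.1 h) (e1 a).2 (hab ▸ (e2 b).2)
  obtain ⟨π, hπ⟩ := Equiv.Perm.exists_extending_pair f g hf hg
  apply Finset.card_le_card_of_injOn (fun σ => σ * π)
  · intro σ hσ
    simp only [coe_filter, mem_univ, true_and, Set.mem_ofPred_eq] at hσ ⊢
    intro a ha b hb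
    have h1 : π a = e1 ⟨a, ha⟩ := hπ (Sum.inl ⟨a, ha⟩)
    have h2 : π b = e2 ⟨b, hb⟩ := hπ (Sum.inr ⟨b, hb⟩)
    simp only [Equiv.Perm.coe_mul, Function.comp, h1, h2]
    exact hσ _ (e1 _).2 _ (e2 _).2
  · intro σ _ τ _ hst
    exact mul_right_cancel hst

theorem cnt_mul_choose {A B : Finset (Fin n)} (h : Disjoint A B) :
    cnt A B * (A.card + B.card).choose A.card = n.factorial := by
  set U := A ∪ B with hU
  have hUc : U.card = A.card + B.card := card_union_of_disjoint h
  have h1 : ∀ σ : Equiv.Perm (Fin n), ((powersetCard A.card U).filter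
      (fun A' => Bef (fun x => (σ x).val) A' (U \ A'))).card = 1 := by
    intro σ
    rw [card_eq_one]
    obtain ⟨R, hR, hc, hm⟩ := exists_top (fun x => (σ x).val) U B.card (by omega)
    refine ⟨U \ R, ?_⟩
    ext A'
    simp only [mem_filter, mem_powersetCard, mem_singleton]
    have hbef : Bef (fun x => (σ x).val) (U \ R) (U \ (U \ R)) := by
      intro a ha b hb
      rw [Finset.sdiff_sdiff_eq_self hR] at hb
      rw [mem_sdiff] at ha
      have h2 := hm a ha.1 ha.2 b hb
      refine lt_of_le_of_ne h2 fun h3 => ha.2 ?_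
      have : a = b := σ.injective (Fin.ext h3)
      exact this ▸ hb
    have hcard : (U \ R).card = A.card := by rw [card_sdiff_of_subset hR]; omega
    constructor
    · rintro ⟨⟨h2, h3⟩, h4⟩
      by_contra hne
      have h5 : ¬ A' ⊆ U \ R := fun h5 => hne (eq_of_subset_of_card_le h5 (by omega))
      have h6 : ¬ U \ R ⊆ A' := fun h6 => hne (eq_of_subset_of_card_le h6 (by omega)).symm
      obtain ⟨x, hx, hx'⟩ := not_subset.1 h5
      obtain ⟨y, hy, hy'⟩ := not_subset.1 h6
      have h7 := h4 x hx y (mem_sdiff.2 ⟨(mem_sdiff.1 hy).1, hy'⟩)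
      have h8 := hbef y hy x (mem_sdiff.2 ⟨h2 hx, hx'⟩)
      omega
    · rintro rfl
      exact ⟨⟨sdiff_subset, hcard⟩, hbef⟩
  have h2 : ∑ A' ∈ powersetCard A.card U, cnt A' (U \ A') = n.factorial := by
    unfold cnt
    simp only [card_filter] at h1 ⊢
    rw [Finset.sum_comm]
    simp only [h1]
    simp [Fintype.card_perm]
  rw [← h2, Finset.sum_congr rfl (g := fun _ => cnt A B), sum_const, card_powersetCard, hUc,
    smul_eq_mul, mul_comm]
  intro A' hA'
  rw [mem_powersetCard] at hA'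
  have h3 : (U \ A').card = B.card := by rw [card_sdiff_of_subset hA'.1]; omega
  exact le_antisymm (cnt_le disjoint_sdiff h hA'.2.symm h3.symm)
    (cnt_le h disjoint_sdiff hA'.2 h3)

end Pool.Agent.Work.MP_0f7bbd_co
end

-- merged part: Pool.Agent.Work.MP_0f7bbd_co.Tilt
section
/-!
The tilted random order: a part of `Y₀` comes first, the rest of `Y₀` comes last.
-/

namespace Pool.Agent.Work.MP_0f7bbd_co

open Finset

variable {n : ℕ}

/-- The key of `x` in the tilted order. -/
def key (Y₀ S : Finset (Fin n)) (σ : Equiv.Perm (Fin n)) (x : Fin n) : ℕ :=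
  if x ∈ Y₀ then (if x ∈ S then 0 else n + 1) else (σ x).val + 1

theorem bef_key_iff {Y₀ S A B : Finset (Fin n)} (σ : Equiv.Perm (Fin n)) (hA : A.Nonempty)
    (hB : B.Nonempty) : Bef (key Y₀ S σ) A B ↔
      (A ∩ Y₀ ⊆ S ∧ Disjoint (B ∩ Y₀) S) ∧ Bef (fun x => (σ x).val) (A \ Y₀) (B \ Y₀) := by
  constructor
  · intro h
    refine ⟨⟨fun a ha => ?_, disjoint_left.2 fun b hb hbS => ?_⟩, fun a ha b hb => ?_⟩
    · rw [mem_inter] at ha
      obtain ⟨b, hb⟩ := hB
      have := h a ha.1 b hb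
      by_contra haS
      have h2 := (σ b).2
      simp only [key, ha.2, haS, if_true, if_false] at this
      split_ifs at this <;> omega
    · rw [mem_inter] at hb
      obtain ⟨a, ha⟩ := hA
      have := h a ha b hb.1
      simp [key, hb.2, hbS] at this
    · rw [mem_sdiff] at ha hb
      have := h a ha.1 b hb.1
      simpa [key, ha.2, hb.2] using this
  · rintro ⟨⟨h1, h2⟩, h3⟩ a ha b hb
    have h4 := (σ a).2
    by_cases haY : a ∈ Y₀ <;> by_cases hbY : b ∈ Y₀
    · have := h1 (mem_inter.2 ⟨ha, haY⟩)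
      have h5 := disjoint_left.1 h2 (mem_inter.2 ⟨hb, hbY⟩)
      simp [key, haY, hbY, this, h5]
    · have := h1 (mem_inter.2 ⟨ha, haY⟩)
      simp [key, haY, hbY, this]
    · have h5 := disjoint_left.1 h2 (mem_inter.2 ⟨hb, hbY⟩)
      simp [key, haY, hbY, h5]
    · have := h3 a (mem_sdiff.2 ⟨ha, haY⟩) b (mem_sdiff.2 ⟨hb, hbY⟩)
      simpa [key, haY, hbY] using this

/-- The weight of the event that `A` precedes `B`. -/
def wt (k : ℕ) (U Y₀ A B : Finset (Fin n)) : ℕ :=
  ∑ S ∈ powersetCard k U, ∑ σ : Equiv.Perm (Fin n), if Bef (key Y₀ S σ) A B then 1 else 0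

theorem wt_formula {k : ℕ} {U Y₀ A B : Finset (Fin n)} (hU : U.card = 2 * k) (hY : Y₀.card = k)
    (hYU : Y₀ ⊆ U) (hAB : Disjoint A B) (hA : A.Nonempty) (hB : B.Nonempty) :
    wt k U Y₀ A B * ((A \ Y₀).card + (B \ Y₀).card).choose (A \ Y₀).card =
      n.factorial * (2 * k - (B ∩ Y₀).card - (A ∩ Y₀).card).choose (k - (A ∩ Y₀).card) := by
  have h1 : wt k U Y₀ A B = ((powersetCard k U).filter
      (fun S => A ∩ Y₀ ⊆ S ∧ Disjoint (B ∩ Y₀) S)).card * cnt (A \ Y₀) (B \ Y₀) := by
    unfold wt cnt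
    rw [card_filter, sum_mul]
    refine sum_congr rfl fun S _ => ?_
    simp_rw [bef_key_iff _ hA hB]
    by_cases h : A ∩ Y₀ ⊆ S ∧ Disjoint (B ∩ Y₀) S
    · simp only [h, true_and, and_self, if_true, one_mul, card_filter]
    · simp only [h, false_and, if_false, zero_mul, sum_const_zero]
  have h2 : (powersetCard k U).filter (fun S => A ∩ Y₀ ⊆ S ∧ Disjoint (B ∩ Y₀) S) =
      (powersetCard k (U \ (B ∩ Y₀))).filter (fun S => A ∩ Y₀ ⊆ S) := by
    ext S
    simp only [mem_filter, mem_powersetCard, subset_sdiff]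
    rw [disjoint_comm]
    tauto
  have h3 : A ∩ Y₀ ⊆ U \ (B ∩ Y₀) := by
    rw [subset_sdiff]
    exact ⟨inter_subset_right.trans hYU,
      disjoint_of_subset_left inter_subset_left (disjoint_of_subset_right inter_subset_left hAB)⟩
  have h4 : (A ∩ Y₀).card ≤ k := hY ▸ card_le_card inter_subset_right
  rw [h1, h2, card_filter_powersetCard_subset _ _ _ h3 h4,
    card_sdiff_of_subset (inter_subset_right.trans hYU), hU, mul_assoc,
    cnt_mul_choose (disjoint_of_subset_left sdiff_subset (disjoint_of_subset_right sdiff_subset hAB)),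
    mul_comm]

theorem choose_three (k u v : ℕ) (hu : 2 ≤ u) (hv : v + 2 ≤ k) :
    4 * (u + 1) * (u + v).choose u ≤ 3 * (k + (u + v)).choose u := by
  obtain ⟨w, rfl⟩ : ∃ w, u = w + 2 := ⟨u - 2, by omega⟩
  set N := w + 2 + v with hN
  have h1 : k.choose 0 * N.choose (w + 2) + k.choose 1 * N.choose (w + 1) +
      k.choose 2 * N.choose w ≤ (k + N).choose (w + 2) := by
    rw [Nat.add_choose_eq k N]
    have hs : ({(0, w + 2), (1, w + 1), (2, w)} : Finset (ℕ × ℕ)) ⊆ antidiagonal (w + 2) := by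
      intro x hx
      simp only [mem_insert, mem_singleton] at hx
      rcases hx with rfl | rfl | rfl <;> simp <;> omega
    refine le_trans ?_ (sum_le_sum_of_subset hs)
    rw [sum_insert (by simp), sum_insert (by simp), sum_singleton]
    simp only [add_assoc, le_refl]
  have h2 := Nat.choose_succ_right_eq N (w + 1)
  have h3 := Nat.choose_succ_right_eq N w
  have h4 : N - (w + 1) = v + 1 := by omega
  have h5 : N - w = v + 2 := by omega
  rw [h4] at h2
  rw [h5] at h3
  have h6 : 2 * k.choose 2 = k * (k - 1) := by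
    rw [Nat.choose_two_right, Nat.mul_div_cancel' (Nat.even_mul_pred_self k).two_dvd]
  rw [Nat.choose_zero_right, Nat.choose_one_right] at h1
  obtain ⟨t, rfl⟩ : ∃ t, k = v + 2 + t := ⟨k - (v + 2), by omega⟩
  have h7 : v + 2 + t - 1 = v + 1 + t := by omega
  rw [h7] at h6
  generalize N.choose (w + 2) = a at *
  generalize N.choose (w + 1) = b at *
  generalize N.choose w = c at *
  generalize (v + 2 + t).choose 2 = e at *
  generalize (v + 2 + t + N).choose (w + 2) = z at *
  have h8 : a * (w + 2) ≤ (v + 2 + t) * b := by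
    clear * - a w b v h2 t
    have : a * (w + 2) = b * (v + 1) := h2
    linarith only [h2, Nat.zero_le (b * t), Nat.zero_le b]
  have h9 : a * (w + 2) * (w + 1) ≤ 2 * e * c := by
    clear * - a w c v b h2 h3 e t h6 hv z
    have e1 : a * (w + 2) * (w + 1) = c * (v + 2) * (v + 1) := by
      have : a * (w + 2) = b * (v + 1) := h2
      calc a * (w + 2) * (w + 1) = b * (w + 1) * (v + 1) := by rw [this]; ring
        _ = _ := by rw [h3]
    rw [e1, h6]
    have : (v + 2) * (v + 1) ≤ (v + 2 + t) * (v + 1 + t) := Nat.mul_le_mul (by omega) (by omega)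
    clear * - c v t this
    linarith only [this, Nat.mul_le_mul_left c this]
  clear * - w a z v t b e c h1 h8 h9
  linarith only [h1, h8, h9, Nat.zero_le (a * w), Nat.zero_le (a * w * w)]

theorem choose_four (k u v : ℕ) :
    (2 * k).choose k * (u + v).choose u ≤ (2 * k + (u + v)).choose (k + u) := by
  rw [Nat.add_choose_eq (2 * k)]
  exact single_le_sum (f := fun ij : ℕ × ℕ => (2 * k).choose ij.1 * (u + v).choose ij.2)
    (fun _ _ => Nat.zero_le _) (a := (k, u)) (by simp)

theorem four_sq_le (k : ℕ) (hk : 4 ≤ k) : 4 * k ^ 2 ≤ (2 * k).choose k := by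
  induction k, hk using Nat.le_induction with
  | base => decide
  | succ k hk ih =>
    have h := Nat.succ_mul_centralBinom_succ k
    rw [Nat.centralBinom_eq_two_mul_choose, Nat.centralBinom_eq_two_mul_choose] at h
    have h2 : (k + 1) * (2 * (2 * k).choose k) ≤ (k + 1) * (2 * (k + 1)).choose (k + 1) := by
      rw [h]; linarith only [Nat.zero_le ((2 * k).choose k), Nat.zero_le (k * (2 * k).choose k)]
    have h3 := Nat.le_of_mul_le_mul_left h2 (by omega)
    nlinarith only [hk, h, h3, ih]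

variable {k : ℕ} {U Y₀ : Finset (Fin n)}

theorem card_split (A Y₀ : Finset (Fin n)) : (A \ Y₀).card + (A ∩ Y₀).card = A.card :=
  card_sdiff_add_card_inter A Y₀

theorem card_traces_le (hY : Y₀.card = k) {A B : Finset (Fin n)} (hAB : Disjoint A B) :
    (A ∩ Y₀).card + (B ∩ Y₀).card ≤ k := by
  rw [← card_union_of_disjoint (disjoint_of_subset_left inter_subset_left
    (disjoint_of_subset_right inter_subset_left hAB)), ← hY]
  exact card_le_card (union_subset inter_subset_right inter_subset_right)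

theorem wt_pair (hU : U.card = 2 * k) (hY : Y₀.card = k) (hYU : Y₀ ⊆ U) (hk : 1 ≤ k)
    {A B : Finset (Fin n)} (hAB : Disjoint A B) (hA : A.card = k) (hB : B.card = k) :
    wt k U Y₀ A B = n.factorial := by
  have h := wt_formula hU hY hYU hAB (card_pos.1 (by omega)) (card_pos.1 (by omega))
  have h1 := card_split A Y₀
  have h2 := card_split B Y₀
  have h3 : (A \ Y₀).card + (B \ Y₀).card = 2 * k - (B ∩ Y₀).card - (A ∩ Y₀).card := by omega
  have h4 : (A \ Y₀).card = k - (A ∩ Y₀).card := by omega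
  rw [h3, h4] at h
  exact Nat.eq_of_mul_eq_mul_right (Nat.choose_pos (by omega)) h

theorem wt_left (hU : U.card = 2 * k) (hY : Y₀.card = k) (hYU : Y₀ ⊆ U) {d : ℕ} (hd : 3 ≤ d)
    {A B : Finset (Fin n)} (hAB : Disjoint A B) (hA : A.card = k) (hB : B.card = 2 * k)
    (hτA : (A ∩ Y₀).card + d ≤ k + 1) (hτB : 2 ≤ (B ∩ Y₀).card) :
    4 * d * wt k U Y₀ A B ≤ 3 * n.factorial := by
  have h := wt_formula hU hY hYU hAB (card_pos.1 (by omega)) (card_pos.1 (by omega))
  have h1 := card_split A Y₀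
  have h2 := card_split B Y₀
  have h0 := card_traces_le hY hAB
  obtain ⟨u, hu⟩ : ∃ u, u + (A ∩ Y₀).card = k := ⟨k - (A ∩ Y₀).card, by omega⟩
  obtain ⟨v, hv⟩ : ∃ v, v + (B ∩ Y₀).card = k := ⟨k - (B ∩ Y₀).card, by omega⟩
  have e1 : (A \ Y₀).card + (B \ Y₀).card = k + (u + v) := by omega
  have e2 : (A \ Y₀).card = u := by omega
  have e3 : 2 * k - (B ∩ Y₀).card - (A ∩ Y₀).card = u + v := by omega
  have e4 : k - (A ∩ Y₀).card = u := by omega
  rw [e1, e2, e3, e4] at h
  have h5 := choose_three k u v (by omega) (by omega)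
  have hpos : 0 < (k + (u + v)).choose u := Nat.choose_pos (by omega)
  apply Nat.le_of_mul_le_mul_right _ hpos
  have h6 : d ≤ u + 1 := by omega
  calc 4 * d * wt k U Y₀ A B * (k + (u + v)).choose u
      = n.factorial * (4 * d * (u + v).choose u) := by rw [mul_assoc, h]; ring
    _ ≤ n.factorial * (4 * (u + 1) * (u + v).choose u) := by gcongr
    _ ≤ n.factorial * (3 * (k + (u + v)).choose u) := by gcongr
    _ = _ := by ring

theorem wt_right (hU : U.card = 2 * k) (hY : Y₀.card = k) (hYU : Y₀ ⊆ U) {d : ℕ} (hd : 3 ≤ d)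
    {A B : Finset (Fin n)} (hAB : Disjoint A B) (hA : A.card = 2 * k) (hB : B.card = k)
    (hτA : 2 ≤ (A ∩ Y₀).card) (hτB : (B ∩ Y₀).card + d ≤ k + 1) :
    4 * d * wt k U Y₀ A B ≤ 3 * n.factorial := by
  have h := wt_formula hU hY hYU hAB (card_pos.1 (by omega)) (card_pos.1 (by omega))
  have h1 := card_split A Y₀
  have h2 := card_split B Y₀
  have h0 := card_traces_le hY hAB
  obtain ⟨u, hu⟩ : ∃ u, u + (B ∩ Y₀).card = k := ⟨k - (B ∩ Y₀).card, by omega⟩
  obtain ⟨v, hv⟩ : ∃ v, v + (A ∩ Y₀).card = k := ⟨k - (A ∩ Y₀).card, by omega⟩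
  have e1 : (A \ Y₀).card + (B \ Y₀).card = k + (u + v) := by omega
  have e2 : (A \ Y₀).card = k + (u + v) - u := by omega
  have e3 : 2 * k - (B ∩ Y₀).card - (A ∩ Y₀).card = u + v := by omega
  have e4 : k - (A ∩ Y₀).card = u + v - u := by omega
  rw [e1, e2, e3, e4, Nat.choose_symm (by omega), Nat.choose_symm (by omega)] at h
  have h5 := choose_three k u v (by omega) (by omega)
  have hpos : 0 < (k + (u + v)).choose u := Nat.choose_pos (by omega)
  apply Nat.le_of_mul_le_mul_right _ hpos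
  have h6 : d ≤ u + 1 := by omega
  calc 4 * d * wt k U Y₀ A B * (k + (u + v)).choose u
      = n.factorial * (4 * d * (u + v).choose u) := by rw [mul_assoc, h]; ring
    _ ≤ n.factorial * (4 * (u + 1) * (u + v).choose u) := by gcongr
    _ ≤ n.factorial * (3 * (k + (u + v)).choose u) := by gcongr
    _ = _ := by ring

theorem wt_quad (hU : U.card = 2 * k) (hY : Y₀.card = k) (hYU : Y₀ ⊆ U) (hk : 1 ≤ k)
    {A B : Finset (Fin n)} (hAB : Disjoint A B) (hA : A.card = 2 * k) (hB : B.card = 2 * k) :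
    (2 * k).choose k * wt k U Y₀ A B ≤ n.factorial := by
  have h := wt_formula hU hY hYU hAB (card_pos.1 (by omega)) (card_pos.1 (by omega))
  have h1 := card_split A Y₀
  have h2 := card_split B Y₀
  have h0 := card_traces_le hY hAB
  obtain ⟨u, hu⟩ : ∃ u, u + (A ∩ Y₀).card = k := ⟨k - (A ∩ Y₀).card, by omega⟩
  obtain ⟨v, hv⟩ : ∃ v, v + (B ∩ Y₀).card = k := ⟨k - (B ∩ Y₀).card, by omega⟩
  have e1 : (A \ Y₀).card + (B \ Y₀).card = 2 * k + (u + v) := by omega
  have e2 : (A \ Y₀).card = k + u := by omega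
  have e3 : 2 * k - (B ∩ Y₀).card - (A ∩ Y₀).card = u + v := by omega
  have e4 : k - (A ∩ Y₀).card = u := by omega
  rw [e1, e2, e3, e4] at h
  have h5 := choose_four k u v
  have hpos : 0 < (2 * k + (u + v)).choose (k + u) := Nat.choose_pos (by omega)
  apply Nat.le_of_mul_le_mul_right _ hpos
  calc (2 * k).choose k * wt k U Y₀ A B * (2 * k + (u + v)).choose (k + u)
      = n.factorial * ((2 * k).choose k * (u + v).choose u) := by rw [mul_assoc, h]; ring
    _ ≤ _ := by gcongr

end Pool.Agent.Work.MP_0f7bbd_co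
end

-- merged part: Pool.Agent.Work.MP_0f7bbd_co.Point
section
/-!
The two pointwise inequalities.
-/

namespace Pool.Agent.Work.MP_0f7bbd_co

open Finset

variable {ι : Type*} [DecidableEq ι]

theorem sum_offDiag (K : Finset ι) (P : ι → Prop) [DecidablePred P] :
    ∑ x ∈ K.offDiag, (if P x.1 ∧ P x.2 then (1 : ℤ) else 0) =
      ((K.filter P).card : ℤ) * ((K.filter P).card - 1) := by
  have h1 : K.offDiag.filter (fun x => P x.1 ∧ P x.2) = (K.filter P).offDiag := by
    ext x
    simp only [mem_filter, mem_offDiag]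
    tauto
  rw [sum_boole, h1, offDiag_card, Nat.cast_sub (Nat.le_mul_self _)]
  push_cast
  ring

theorem two_mul_le (r : ℕ) : 2 * (r : ℤ) ≤ (r : ℤ) * (r - 1) + 2 := by
  rcases Nat.lt_or_ge r 2 with h | h
  · interval_cases r <;> norm_num
  · have : (2 : ℤ) ≤ r := by exact_mod_cast h
    nlinarith only [h]

variable (lt : ι → ι → Prop) [DecidableRel lt] (m : ι → ℕ)

/-- Indicator of the existence of a comparable pair. -/
def has (K : Finset ι) : ℤ := if ∃ i ∈ K, ∃ j ∈ K, lt i j then 1 else 0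

/-- Number of comparable pairs. -/
def nR (K : Finset ι) : ℤ := ∑ i ∈ K, ∑ j ∈ K, if lt i j then 1 else 0

/-- Number of ordered configurations with one element below two others. -/
def nV (K : Finset ι) : ℤ := ∑ i ∈ K, ∑ x ∈ K.offDiag, if lt i x.1 ∧ lt i x.2 then 1 else 0

/-- Number of ordered configurations with one element above two others. -/
def nL (K : Finset ι) : ℤ := ∑ j ∈ K, ∑ x ∈ K.offDiag, if lt x.1 j ∧ lt x.2 j then 1 else 0

/-- Number of ordered configurations with two elements below two others. -/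
def nQ (K : Finset ι) : ℤ := ∑ x ∈ K.offDiag, ∑ y ∈ K.offDiag,
  if (lt x.1 y.1 ∧ lt x.1 y.2) ∧ (lt x.2 y.1 ∧ lt x.2 y.2) then 1 else 0

theorem bonferroni (mono : ∀ i j j', lt i j → m j ≤ m j' → lt i j') (K : Finset ι) :
    2 * nR lt K ≤ 2 * has lt K + nV lt K + nL lt K := by
  have hV : 0 ≤ nV lt K := sum_nonneg fun _ _ => sum_nonneg fun _ _ => by split_ifs <;> norm_num
  have hL : 0 ≤ nL lt K := sum_nonneg fun _ _ => sum_nonneg fun _ _ => by split_ifs <;> norm_num
  by_cases h : ∃ i ∈ K, ∃ j ∈ K, lt i j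
  · obtain ⟨j₀, hj₀, hmax⟩ := exists_max_image K m (by obtain ⟨i, hi, -⟩ := h; exact ⟨i, hi⟩)
    have h1 : ∀ i ∈ K, 2 * (∑ j ∈ K, if lt i j then (1 : ℤ) else 0) ≤
        (∑ x ∈ K.offDiag, if lt i x.1 ∧ lt i x.2 then 1 else 0) +
          2 * (if lt i j₀ then 1 else 0) := by
      intro i _
      rw [sum_offDiag K (fun j => lt i j), sum_boole]
      by_cases h2 : lt i j₀
      · simp only [h2, if_true, mul_one]
        exact two_mul_le _
      · have : K.filter (fun j => lt i j) = ∅ := by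
          rw [filter_eq_empty_iff]
          intro j hj hij
          exact h2 (mono i j j₀ hij (hmax j hj))
        simp [this, h2]
    have h2 := sum_le_sum h1
    rw [← mul_sum, sum_add_distrib, ← mul_sum, sum_boole] at h2
    have h3 := two_mul_le (K.filter (fun i => lt i j₀)).card
    rw [← sum_offDiag K (fun i => lt i j₀)] at h3
    have h4 : (∑ x ∈ K.offDiag, if lt x.1 j₀ ∧ lt x.2 j₀ then (1 : ℤ) else 0) ≤ nL lt K :=
      single_le_sum (f := fun j => ∑ x ∈ K.offDiag, if lt x.1 j ∧ lt x.2 j then (1 : ℤ) else 0)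
        (fun _ _ => sum_nonneg fun _ _ => by split_ifs <;> norm_num) hj₀
    simp only [has, h, if_true, nR, nV] at *
    linarith only [h2, h3, h4]
  · have : nR lt K = 0 := by
      refine sum_eq_zero fun i hi => sum_eq_zero fun j hj => ?_
      rw [if_neg]
      exact fun hij => h ⟨i, hi, j, hj, hij⟩
    simp only [has, h, if_false, this]
    linarith

theorem pointwise [Fintype ι] {P : Type*} [Fintype P] [DecidableEq P] (X : ι → Finset P) {k : ℕ}
    (hX : ∀ i, (X i).card = k) (hk : k ≤ Fintype.card ι)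
    (mono : ∀ i j j', lt i j → m j ≤ m j' → lt i j')
    (adj : ∀ i j, lt i j → (X i ∩ X j).Nonempty) :
    ∑ p, has lt (univ.filter (fun i => p ∈ X i)) ≤
      (k : ℤ) ^ 2 + ∑ p, nQ lt (univ.filter (fun i => p ∈ X i)) := by
  obtain ⟨R, -, hR, htop⟩ := exists_top m univ k hk
  set L : Finset ι := univ.filter (fun i => ∀ j ∈ R, lt i j) with hL
  set r : P → ℕ := fun p => (R.filter (fun j => p ∈ X j)).card with hr
  set o : P → ℕ := fun p => (L.filter (fun i => p ∈ X i)).card with ho
  have h1 : ∑ p, (r p : ℤ) = (k : ℤ) ^ 2 := by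
    simp only [hr, card_filter]
    push_cast
    rw [sum_comm]
    simp only [sum_boole, filter_mem_eq_inter, univ_inter, hX, sum_const, hR]
    simp [sq]
  have h2 : 0 ≤ ∑ p, (o p : ℤ) * (r p - 1) := by
    clear * - P o r ι L X ho k hX R adj lt hR
    have : ∑ p, (o p : ℤ) * (r p - 1) = ∑ i ∈ L, ∑ p ∈ X i, ((r p : ℤ) - 1) := by
      simp only [ho, card_filter]
      push_cast
      simp_rw [sum_mul]
      rw [sum_comm]
      refine sum_congr rfl fun i _ => ?_
      simp only [ite_mul, one_mul, zero_mul]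
      rw [← sum_filter, filter_mem_eq_inter, univ_inter]
    rw [this]
    refine sum_nonneg fun i hi => ?_
    rw [sum_sub_distrib, sum_const, hX]
    have h3 : R ⊆ (X i).biUnion (fun p => R.filter (fun j => p ∈ X j)) := by
      intro j hj
      obtain ⟨p, hp⟩ := adj i j ((mem_filter.1 hi).2 j hj)
      rw [mem_inter] at hp
      exact mem_biUnion.2 ⟨p, hp.1, mem_filter.2 ⟨hj, hp.2⟩⟩
    have h4 := (card_le_card h3).trans card_biUnion_le
    rw [hR] at h4
    have h5 : (k : ℤ) ≤ ∑ p ∈ X i, (r p : ℤ) := by exact_mod_cast h4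
    simp only [nsmul_eq_mul, mul_one]
    linarith only [h4]
  have h3 : ∀ p, has lt (univ.filter (fun i => p ∈ X i)) ≤
      r p - (o p : ℤ) * (r p - 1) + nQ lt (univ.filter (fun i => p ∈ X i)) := by
    clear * - P o r ι lt X L R k hr mono htop
    intro p
    have h4 : (o p : ℤ) * (o p - 1) * ((r p : ℤ) * (r p - 1)) ≤
        nQ lt (univ.filter (fun i => p ∈ X i)) := by
      have e1 : (o p : ℤ) * (o p - 1) = ∑ x ∈ (univ.filter (fun i => p ∈ X i)).offDiag,
          if x.1 ∈ L ∧ x.2 ∈ L then (1 : ℤ) else 0 := by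
        rw [sum_offDiag _ (fun i => i ∈ L)]
        have : (univ.filter (fun i => p ∈ X i)).filter (fun i => i ∈ L) =
            L.filter (fun i => p ∈ X i) := by
          ext i; simp only [mem_filter, mem_univ, true_and]; tauto
        rw [this]
      have e2 : (r p : ℤ) * (r p - 1) = ∑ x ∈ (univ.filter (fun i => p ∈ X i)).offDiag,
          if x.1 ∈ R ∧ x.2 ∈ R then (1 : ℤ) else 0 := by
        rw [sum_offDiag _ (fun i => i ∈ R)]
        have : (univ.filter (fun i => p ∈ X i)).filter (fun i => i ∈ R) =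
            R.filter (fun i => p ∈ X i) := by
          ext i; simp only [mem_filter, mem_univ, true_and]; tauto
        rw [this]
      rw [e1, e2, sum_mul_sum]
      refine sum_le_sum fun x _ => sum_le_sum fun y _ => ?_
      by_cases hx : x.1 ∈ L ∧ x.2 ∈ L
      · by_cases hy : y.1 ∈ R ∧ y.2 ∈ R
        · have a1 := (mem_filter.1 hx.1).2
          have a2 := (mem_filter.1 hx.2).2
          rw [if_pos hx, if_pos hy, if_pos ⟨⟨a1 _ hy.1, a1 _ hy.2⟩, ⟨a2 _ hy.1, a2 _ hy.2⟩⟩]
          norm_num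
        · rw [if_neg hy, mul_zero]; split_ifs <;> norm_num
      · rw [if_neg hx, zero_mul]; split_ifs <;> norm_num
    have h5 : has lt (univ.filter (fun i => p ∈ X i)) ≤ 1 := by
      unfold has; split_ifs <;> norm_num
    rcases Nat.eq_zero_or_pos (r p) with h0 | h0
    · rw [h0] at h4 ⊢
      by_cases hh : ∃ i ∈ univ.filter (fun i => p ∈ X i), ∃ j ∈ univ.filter (fun i => p ∈ X i),
          lt i j
      · obtain ⟨i, hi, j, hj, hij⟩ := hh
        have hjR : j ∉ R := by
          intro hjR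
          have : j ∈ R.filter (fun j => p ∈ X j) := mem_filter.2 ⟨hjR, (mem_filter.1 hj).2⟩
          have := card_pos.2 ⟨j, this⟩
          simp only [hr] at h0
          omega
        have hiL : i ∈ L := mem_filter.2 ⟨mem_univ _, fun j' hj' =>
          mono i j j' hij (htop j (mem_univ _) hjR j' hj')⟩
        have : 1 ≤ o p := card_pos.2 ⟨i, mem_filter.2 ⟨hiL, (mem_filter.1 hi).2⟩⟩
        have : (1 : ℤ) ≤ o p := by exact_mod_cast this
        push_cast at h4 ⊢
        linarith
      · simp only [has, hh, if_false]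
        push_cast at h4 ⊢
        have : (0 : ℤ) ≤ o p := by positivity
        linarith only [h4]
    · have a1 : (1 : ℤ) ≤ r p := by exact_mod_cast h0
      rcases Nat.eq_zero_or_pos (o p) with h6 | h6
      · rw [h6] at h4 ⊢
        push_cast at h4 ⊢
        linarith only [h5, h0, h4]
      · have a2 : (1 : ℤ) ≤ o p := by exact_mod_cast h6
        have a3 : 0 ≤ ((o p : ℤ) - 1) * (r p - 1) * (o p * r p - 1) :=
          mul_nonneg (mul_nonneg (by linarith) (by linarith)) (by nlinarith only [h6, h0])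
        linarith only [h4, h5, a3]
  have h4 := sum_le_sum (fun p (_ : p ∈ univ) => h3 p)
  rw [sum_add_distrib, sum_sub_distrib, h1] at h4
  linarith only [h2, h4]

end Pool.Agent.Work.MP_0f7bbd_co
end

-- merged part: Pool.Agent.Work.MP_0f7bbd_co.Upper
section
/-!
The weighted Bollobas-type inequality in the presence of a set `Y₀` meeting all the `Y i`.
-/

namespace Pool.Agent.Work.MP_0f7bbd_co

open Finset

variable {n k : ℕ} {U Y₀ : Finset (Fin n)} {ι : Type*} [DecidableEq ι]

/-- Sum over the probability space. -/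
def ex (k : ℕ) (U : Finset (Fin n)) (F : Finset (Fin n) → Equiv.Perm (Fin n) → ℤ) : ℤ :=
  ∑ S ∈ powersetCard k U, ∑ σ : Equiv.Perm (Fin n), F S σ

theorem ex_sum {κ : Type*} (s : Finset κ) (F : κ → Finset (Fin n) → Equiv.Perm (Fin n) → ℤ) :
    ex k U (fun S σ => ∑ x ∈ s, F x S σ) = ∑ x ∈ s, ex k U (F x) := by
  unfold ex
  rw [sum_comm (s := s)]
  refine sum_congr rfl fun S _ => ?_
  rw [sum_comm]

theorem ex_ite (A B : Finset (Fin n)) (P : Finset (Fin n) → Equiv.Perm (Fin n) → Prop)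
    [∀ S σ, Decidable (P S σ)] (h : ∀ S σ, P S σ ↔ Bef (key Y₀ S σ) A B) :
    ex k U (fun S σ => if P S σ then 1 else 0) = wt k U Y₀ A B := by
  unfold ex wt
  push_cast
  simp_rw [h]

theorem ex_false (P : Finset (Fin n) → Equiv.Perm (Fin n) → Prop)
    [∀ S σ, Decidable (P S σ)] (h : ∀ S σ, ¬ P S σ) :
    ex k U (fun S σ => if P S σ then 1 else 0) = 0 := by
  unfold ex
  simp [h]

theorem ex_mono {F G : Finset (Fin n) → Equiv.Perm (Fin n) → ℤ} (h : ∀ S σ, F S σ ≤ G S σ) :
    ex k U F ≤ ex k U G :=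
  sum_le_sum fun S _ => sum_le_sum fun σ _ => h S σ

theorem ex_add (F G : Finset (Fin n) → Equiv.Perm (Fin n) → ℤ) :
    ex k U (fun S σ => F S σ + G S σ) = ex k U F + ex k U G := by
  simp [ex, sum_add_distrib]

theorem ex_mul (c : ℤ) (F : Finset (Fin n) → Equiv.Perm (Fin n) → ℤ) :
    ex k U (fun S σ => c * F S σ) = c * ex k U F := by
  simp [ex, mul_sum]

theorem bef_union_right {α : Type*} [DecidableEq α] (f : α → ℕ) (A B C : Finset α) :
    Bef f A B ∧ Bef f A C ↔ Bef f A (B ∪ C) := by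
  simp only [Bef, mem_union]
  constructor
  · rintro ⟨h1, h2⟩ a ha b (hb | hb)
    exacts [h1 a ha b hb, h2 a ha b hb]
  · exact fun h => ⟨fun a ha b hb => h a ha b (Or.inl hb), fun a ha b hb => h a ha b (Or.inr hb)⟩

theorem bef_union_left {α : Type*} [DecidableEq α] (f : α → ℕ) (A B C : Finset α) :
    Bef f A C ∧ Bef f B C ↔ Bef f (A ∪ B) C := by
  simp only [Bef, mem_union]
  constructor
  · rintro ⟨h1, h2⟩ a (ha | ha) b hb
    exacts [h1 a ha b hb, h2 a ha b hb]
  · exact fun h => ⟨fun a ha b hb => h a (Or.inl ha) b hb, fun a ha b hb => h a (Or.inr ha) b hb⟩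

theorem not_bef_self {α : Type*} (f : α → ℕ) {A : Finset α} (hA : A.Nonempty) : ¬ Bef f A A := by
  obtain ⟨a, ha⟩ := hA
  exact fun h => lt_irrefl _ (h a ha a ha)

theorem Bef.disjoint {α : Type*} {f : α → ℕ} {A B : Finset α} (h : Bef f A B) : Disjoint A B :=
  disjoint_left.2 fun a ha hb => lt_irrefl _ (h a ha a hb)

/-- The minimal key on a set. -/
noncomputable def mn {α : Type*} (f : α → ℕ) (A : Finset α) : ℕ := sInf (f '' (A : Set α))

theorem bef_mono {α : Type*} {f : α → ℕ} {A B B' : Finset α} (hB : B.Nonempty) (h : Bef f A B)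
    (hm : mn f B ≤ mn f B') : Bef f A B' := by
  intro a ha b' hb'
  obtain ⟨b, hb, hfb⟩ : mn f B ∈ f '' (B : Set α) :=
    Nat.sInf_mem (Set.Nonempty.image f (coe_nonempty.2 hB))
  have h1 : mn f B' ≤ f b' := Nat.sInf_le ⟨b', hb', rfl⟩
  have h2 := h a ha b hb
  omega

theorem card_ne_two (K : Finset ι) {x : ι × ι} (hx : x ∈ K.offDiag) :
    ((K.filter (fun i => i ≠ x.1 ∧ i ≠ x.2)).card : ℤ) = K.card - 2 := by
  rw [mem_offDiag] at hx
  have : K.filter (fun i => i ≠ x.1 ∧ i ≠ x.2) = (K.erase x.1).erase x.2 := by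
    ext i; simp only [mem_filter, mem_erase]; tauto
  rw [this]
  have h1 := card_erase_add_one hx.1
  have h2 := card_erase_add_one (mem_erase.2 ⟨hx.2.2.symm, hx.2.1⟩)
  omega

theorem card_offDiag (K : Finset ι) : (K.offDiag.card : ℤ) = K.card * (K.card - 1) := by
  rw [offDiag_card, Nat.cast_sub (Nat.le_mul_self _)]
  push_cast; ring

theorem clique_bound (hU : U.card = 2 * k) (hY : Y₀.card = k) (hYU : Y₀ ⊆ U) (hk : 1 ≤ k)
    (Y : ι → Finset (Fin n)) (hc : ∀ i, (Y i).card = k) (hit : ∀ i, (Y i ∩ Y₀).Nonempty)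
    (K : Finset ι) (hK : ∀ i ∈ K, ∀ j ∈ K, i ≠ j → Disjoint (Y i) (Y j)) :
    2 * ((K.card : ℤ) - 1) * n.factorial +
      ex k U (fun S σ => nQ (fun i j => Bef (key Y₀ S σ) (Y i) (Y j)) K) ≤
      ex k U (fun S σ => has (fun i j => Bef (key Y₀ S σ) (Y i) (Y j)) K) := by
  have hne : ∀ i, (Y i).Nonempty := fun i => card_pos.1 (by rw [hc]; omega)
  have hτ : ∀ i, 1 ≤ (Y i ∩ Y₀).card := fun i => card_pos.2 (hit i)
  have hsum : ∑ j ∈ K, (Y j ∩ Y₀).card ≤ k := by
    rw [← card_biUnion, ← hY]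
    · exact card_le_card (biUnion_subset.2 fun j _ => inter_subset_right)
    · intro i hi j hj hij
      exact disjoint_of_subset_left inter_subset_left
        (disjoint_of_subset_right inter_subset_left (hK i hi j hj hij))
  have hτ2 : ∀ i ∈ K, (Y i ∩ Y₀).card + K.card ≤ k + 1 := by
    intro i hi
    rw [← add_sum_erase K _ hi] at hsum
    have h1 : (K.erase i).card ≤ ∑ j ∈ K.erase i, (Y j ∩ Y₀).card := by
      rw [card_eq_sum_ones]; exact sum_le_sum fun j _ => hτ j
    have h2 := card_erase_add_one hi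
    omega
  have hu : ∀ x ∈ K.offDiag, (Y x.1 ∪ Y x.2).card = 2 * k ∧ 2 ≤ ((Y x.1 ∪ Y x.2) ∩ Y₀).card := by
    intro x hx
    rw [mem_offDiag] at hx
    have hd := hK _ hx.1 _ hx.2.1 hx.2.2
    refine ⟨by rw [card_union_of_disjoint hd, hc, hc]; ring, ?_⟩
    rw [union_inter_distrib_right, card_union_of_disjoint (disjoint_of_subset_left
      inter_subset_left (disjoint_of_subset_right inter_subset_left hd))]
    have := hτ x.1; have := hτ x.2; omega
  have hd3 : ∀ x ∈ K.offDiag, ∀ i ∈ K, i ≠ x.1 ∧ i ≠ x.2 → 3 ≤ K.card := by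
    intro x hx i hi h
    have h1 := card_ne_two K hx
    have h2 : 0 < (K.filter (fun i => i ≠ x.1 ∧ i ≠ x.2)).card :=
      card_pos.2 ⟨i, mem_filter.2 ⟨hi, h⟩⟩
    omega
  obtain ⟨F, hF⟩ : ∃ F : ℤ, F = n.factorial := ⟨_, rfl⟩
  have hF0 : 0 < F := by rw [hF]; exact_mod_cast n.factorial_pos
  obtain ⟨d, hd⟩ : ∃ d : ℤ, d = K.card := ⟨_, rfl⟩
  have hR : d * (d - 1) * F ≤
      ex k U (fun S σ => nR (fun i j => Bef (key Y₀ S σ) (Y i) (Y j)) K) := by
    unfold nR
    rw [ex_sum]
    have h1 : ∀ i ∈ K, (d - 1) * F ≤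
        ex k U (fun S σ => ∑ j ∈ K, if Bef (key Y₀ S σ) (Y i) (Y j) then 1 else 0) := by
      intro i hi
      rw [ex_sum, ← add_sum_erase K _ hi, ex_false _ (fun S σ => not_bef_self _ (hne i)), zero_add,
        sum_congr rfl (g := fun _ => F)]
      · have := card_erase_add_one hi
        rw [sum_const, nsmul_eq_mul, hd, ← this]
        push_cast
        linarith only []
      · intro j hj
        rw [mem_erase] at hj
        rw [ex_ite (Y i) (Y j) _ (fun _ _ => Iff.rfl),
          wt_pair hU hY hYU hk (hK i hi j hj.2 hj.1.symm) (hc i) (hc j), hF]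
    have := sum_le_sum h1
    rw [sum_const, nsmul_eq_mul, ← hd] at this
    linarith only [this]
  have hV : 4 * d * ex k U (fun S σ => nV (fun i j => Bef (key Y₀ S σ) (Y i) (Y j)) K) ≤
      d * (d - 1) * ((d - 2) * (3 * F)) := by
    unfold nV
    simp_rw [ex_sum]
    rw [sum_comm, mul_sum, hd, ← card_offDiag, ← nsmul_eq_mul, ← sum_const]
    refine sum_le_sum fun x hx => ?_
    rw [← card_ne_two K hx, ← nsmul_eq_mul, ← sum_const, sum_filter, mul_sum]
    refine sum_le_sum fun i hi => ?_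
    by_cases h : i ≠ x.1 ∧ i ≠ x.2
    · rw [if_pos h, ex_ite (Y i) (Y x.1 ∪ Y x.2) _ (fun _ _ => bef_union_right _ _ _ _), hF]
      have hx' := mem_offDiag.1 hx
      exact_mod_cast wt_left hU hY hYU (hd3 x hx i hi h)
        (disjoint_union_right.2 ⟨hK _ hi _ hx'.1 h.1, hK _ hi _ hx'.2.1 h.2⟩) (hc i) (hu x hx).1
        (hτ2 i hi) (hu x hx).2
    · rw [if_neg h, ex_false, mul_zero]
      rintro S σ ⟨h1, h2⟩
      apply h
      constructor <;> rintro rfl
      exacts [not_bef_self _ (hne _) h1, not_bef_self _ (hne _) h2]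
  have hL : 4 * d * ex k U (fun S σ => nL (fun i j => Bef (key Y₀ S σ) (Y i) (Y j)) K) ≤
      d * (d - 1) * ((d - 2) * (3 * F)) := by
    unfold nL
    simp_rw [ex_sum]
    rw [sum_comm, mul_sum, hd, ← card_offDiag, ← nsmul_eq_mul, ← sum_const]
    refine sum_le_sum fun x hx => ?_
    rw [← card_ne_two K hx, ← nsmul_eq_mul, ← sum_const, sum_filter, mul_sum]
    refine sum_le_sum fun i hi => ?_
    by_cases h : i ≠ x.1 ∧ i ≠ x.2
    · rw [if_pos h, ex_ite (Y x.1 ∪ Y x.2) (Y i) _ (fun _ _ => bef_union_left _ _ _ _), hF]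
      have hx' := mem_offDiag.1 hx
      exact_mod_cast wt_right hU hY hYU (hd3 x hx i hi h)
        (disjoint_union_left.2 ⟨hK _ hx'.1 _ hi h.1.symm, hK _ hx'.2.1 _ hi h.2.symm⟩) (hu x hx).1
        (hc i) (hu x hx).2 (hτ2 i hi)
    · rw [if_neg h, ex_false, mul_zero]
      rintro S σ ⟨h1, h2⟩
      apply h
      constructor <;> rintro rfl
      exacts [not_bef_self _ (hne _) h1, not_bef_self _ (hne _) h2]
  have hQ : ((2 * k).choose k : ℤ) *
      ex k U (fun S σ => nQ (fun i j => Bef (key Y₀ S σ) (Y i) (Y j)) K) ≤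
      d * (d - 1) * ((d - 2) * (d - 2 - 1) * F) := by
    unfold nQ
    simp_rw [ex_sum]
    rw [mul_sum, hd, ← card_offDiag, ← nsmul_eq_mul, ← sum_const]
    refine sum_le_sum fun x hx => ?_
    rw [← card_ne_two K hx, ← sum_offDiag K (fun i => i ≠ x.1 ∧ i ≠ x.2), sum_mul, mul_sum]
    refine sum_le_sum fun y hy => ?_
    by_cases h : (y.1 ≠ x.1 ∧ y.1 ≠ x.2) ∧ (y.2 ≠ x.1 ∧ y.2 ≠ x.2)
    · rw [if_pos h, one_mul, ex_ite (Y x.1 ∪ Y x.2) (Y y.1 ∪ Y y.2) _ (fun _ _ => by
        rw [bef_union_right, bef_union_right, bef_union_left]), hF]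
      have hx' := mem_offDiag.1 hx
      have hy' := mem_offDiag.1 hy
      exact_mod_cast wt_quad hU hY hYU hk (disjoint_union_left.2
        ⟨disjoint_union_right.2 ⟨hK _ hx'.1 _ hy'.1 h.1.1.symm, hK _ hx'.1 _ hy'.2.1 h.2.1.symm⟩,
        disjoint_union_right.2 ⟨hK _ hx'.2.1 _ hy'.1 h.1.2.symm,
          hK _ hx'.2.1 _ hy'.2.1 h.2.2.symm⟩⟩) (hu x hx).1 (hu y hy).1
    · rw [if_neg h, zero_mul, ex_false, mul_zero]
      rintro S σ ⟨⟨h1, h2⟩, h3, h4⟩
      apply h
      refine ⟨⟨fun e => ?_, fun e => ?_⟩, ⟨fun e => ?_, fun e => ?_⟩⟩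
      · rw [e] at h1; exact not_bef_self _ (hne _) h1
      · rw [e] at h3; exact not_bef_self _ (hne _) h3
      · rw [e] at h2; exact not_bef_self _ (hne _) h2
      · rw [e] at h4; exact not_bef_self _ (hne _) h4
  have hB : 2 * ex k U (fun S σ => nR (fun i j => Bef (key Y₀ S σ) (Y i) (Y j)) K) ≤
      2 * ex k U (fun S σ => has (fun i j => Bef (key Y₀ S σ) (Y i) (Y j)) K) +
      ex k U (fun S σ => nV (fun i j => Bef (key Y₀ S σ) (Y i) (Y j)) K) +
      ex k U (fun S σ => nL (fun i j => Bef (key Y₀ S σ) (Y i) (Y j)) K) := by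
    rw [← ex_mul, ← ex_mul, ← ex_add, ← ex_add]
    apply ex_mono
    intro S σ
    exact bonferroni (fun i j => Bef (key Y₀ S σ) (Y i) (Y j)) (fun j => mn (key Y₀ S σ) (Y j))
      (fun i j j' h hm => bef_mono (hne j) h hm) K
  rw [← hd, ← hF]
  rcases K.eq_empty_or_nonempty with rfl | ⟨i₀, hi₀⟩
  · simp only [card_empty, Nat.cast_zero] at hd
    simp [hd, nQ, has, ex, hF0.le]
  have hd1 : 1 ≤ d := by rw [hd]; exact_mod_cast card_pos.2 ⟨i₀, hi₀⟩
  have hdk : d ≤ k := by
    have := hτ2 i₀ hi₀; have := hτ i₀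
    rw [hd]; exact_mod_cast (by omega : K.card ≤ k)
  generalize ex k U (fun S σ => nR (fun i j => Bef (key Y₀ S σ) (Y i) (Y j)) K) = R at *
  generalize ex k U (fun S σ => nV (fun i j => Bef (key Y₀ S σ) (Y i) (Y j)) K) = V at *
  generalize ex k U (fun S σ => nL (fun i j => Bef (key Y₀ S σ) (Y i) (Y j)) K) = L at *
  generalize ex k U (fun S σ => nQ (fun i j => Bef (key Y₀ S σ) (Y i) (Y j)) K) = Q at *
  generalize ex k U (fun S σ => has (fun i j => Bef (key Y₀ S σ) (Y i) (Y j)) K) = H at *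
  have hV' : 4 * V ≤ (d - 1) * ((d - 2) * (3 * F)) := by
    apply le_of_mul_le_mul_left _ (by linarith only [hd1] : 0 < d)
    linarith only [hV]
  have hL' : 4 * L ≤ (d - 1) * ((d - 2) * (3 * F)) := by
    apply le_of_mul_le_mul_left _ (by linarith only [hd1] : 0 < d)
    linarith only [hL]
  have hC : (0 : ℤ) < (2 * k).choose k := by exact_mod_cast Nat.choose_pos (by omega)
  have h12 : 0 ≤ (d - 1) * (d - 2) := by
    rcases eq_or_lt_of_le hd1 with h | h
    · rw [← h]; norm_num
    · exact mul_nonneg (by linarith only [h]) (by linarith only [h])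
  have hQ' : 4 * Q ≤ (d - 1) * (d - 2) * F := by
    clear * - Q d F h12 hF0 ι K k R V L hd hd1 hdk hR hV hL hQ hV' hL' hC n U Y₀ hY hk Y H
    by_cases hQ0 : Q ≤ 0
    · clear * - Q d F hQ0 h12 hF0
      linarith only [hQ0, h12, hF0, mul_nonneg h12 hF0.le]
    push Not at hQ0
    by_cases h4 : d ≤ 3
    · exfalso
      have : d * (d - 1) * ((d - 2) * (d - 2 - 1) * F) = 0 := by
        interval_cases d <;> simp
      clear * - k Q d F hQ this hC hQ0
      linarith only [hQ, this, hC, hQ0, mul_pos hC hQ0]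
    · have hk4 : 4 ≤ k := by omega
      have h5 : (4 : ℤ) * k ^ 2 ≤ (2 * k).choose k := by exact_mod_cast four_sq_le k hk4
      have h6 : 4 * d ^ 2 ≤ (2 * k).choose k := by clear * - d k ι K h5 hd hdk; linarith only [h5, hd, hdk, Mathlib.Tactic.Linarith.mul_zero_eq (Mathlib.Tactic.Linarith.sub_nonpos_of_le (Mathlib.Tactic.Linarith.natCast_nonneg ℤ #K)) (sub_eq_zero_of_eq hd), mul_nonneg_of_nonpos_of_nonpos (Mathlib.Tactic.Linarith.sub_nonpos_of_le (Mathlib.Tactic.Linarith.natCast_nonneg ℤ #K)) (Mathlib.Tactic.Linarith.sub_nonpos_of_le hdk), Mathlib.Tactic.Linarith.mul_zero_eq (Mathlib.Tactic.Linarith.sub_nonpos_of_le (Mathlib.Tactic.Linarith.natCast_nonneg ℤ k)) (sub_eq_zero_of_eq hd), mul_nonneg_of_nonpos_of_nonpos (Mathlib.Tactic.Linarith.sub_nonpos_of_le (Mathlib.Tactic.Linarith.natCast_nonneg ℤ k)) (Mathlib.Tactic.Linarith.sub_nonpos_of_le hdk), Mathlib.Tactic.Linarith.zero_mul_eq (sub_eq_zero_of_eq hd) (sub_eq_zero_of_eq hd)]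
      have h7 : d ^ 2 * (4 * Q) ≤ d ^ 2 * ((d - 1) * (d - 2) * F) := by
        clear * - d Q k h6 hQ0 F h4 h12 hF0 hQ
        have h8 := mul_le_mul_of_nonneg_right h6 hQ0.le
        have h9 : 0 ≤ d * ((d - 1) * (d - 2) * F) := mul_nonneg (by linarith) (mul_nonneg h12 hF0.le)
        linarith only [hQ, h8, h9]
      exact le_of_mul_le_mul_left h7 (by positivity)
  clear * - d F Q H R V L hR hB hV' hL' hQ'
  linarith only [hR, hB, hV', hL', hQ']

theorem main_ineq [Fintype ι] (hk : 1 ≤ k) (hn : 2 * k ≤ n) (hι : k ≤ Fintype.card ι)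
    (X Y : ι → Finset (Fin n)) (hX : ∀ i, (X i).card = k) (hc : ∀ i, (Y i).card = k)
    (h1 : ∀ i j, i ≠ j → (X i ∩ X j).Nonempty → Disjoint (Y i) (Y j))
    (h2 : ∀ i j, Disjoint (Y i) (Y j) → (X i ∩ X j).Nonempty)
    (Y₀ : Finset (Fin n)) (hY : Y₀.card = k) (hit : ∀ i, (Y i ∩ Y₀).Nonempty) :
    2 * ((Fintype.card ι : ℤ) * k - n) ≤ (k : ℤ) ^ 2 * ((2 * k).choose k - 2) := by
  obtain ⟨U, hYU, -, hU⟩ := exists_subsuperset_card_eq (subset_univ Y₀)
    (by omega : Y₀.card ≤ 2 * k) (by simpa using hn)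
  have hne : ∀ i, (Y i).Nonempty := fun i => card_pos.1 (by rw [hc]; omega)
  have h3 := sum_le_sum (s := univ) (fun (p : Fin n) _ => clique_bound hU hY hYU hk Y hc hit
    (univ.filter (fun i => p ∈ X i)) (fun i hi j hj hij =>
      h1 i j hij ⟨p, mem_inter.2 ⟨(mem_filter.1 hi).2, (mem_filter.1 hj).2⟩⟩))
  rw [sum_add_distrib, ← ex_sum, ← ex_sum, ← sum_mul, ← mul_sum, sum_sub_distrib] at h3
  have h4 : ∑ p : Fin n, ((univ.filter (fun i => p ∈ X i)).card : ℤ) = Fintype.card ι * k := by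
    simp only [card_filter]
    push_cast
    rw [sum_comm]
    simp [hX]
  rw [h4] at h3
  have h5 : ex k U (fun S σ => ∑ p : Fin n, has (fun i j => Bef (key Y₀ S σ) (Y i) (Y j))
      (univ.filter (fun i => p ∈ X i))) ≤
      ex k U (fun S _ => if S = Y₀ ∨ S = U \ Y₀ then 0 else (k : ℤ) ^ 2) +
      ex k U (fun S σ => ∑ p : Fin n, nQ (fun i j => Bef (key Y₀ S σ) (Y i) (Y j))
      (univ.filter (fun i => p ∈ X i))) := by
    rw [← ex_add]
    refine ex_mono fun S σ => ?_
    by_cases hS : S = Y₀ ∨ S = U \ Y₀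
    · have hno : ∀ i j, ¬ Bef (key Y₀ S σ) (Y i) (Y j) := by
        intro i j h
        rw [bef_key_iff σ (hne i) (hne j)] at h
        rcases hS with rfl | rfl
        · obtain ⟨x, hx⟩ := hit j
          exact disjoint_left.1 h.1.2 hx (mem_inter.1 hx).2
        · obtain ⟨x, hx⟩ := hit i
          exact (mem_sdiff.1 (h.1.1 hx)).2 (mem_inter.1 hx).2
      simp [hS, has, nQ, hno]
    · rw [if_neg hS]
      exact pointwise (fun i j => Bef (key Y₀ S σ) (Y i) (Y j))
        (fun j => mn (key Y₀ S σ) (Y j)) X hX hι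
        (fun i j j' h hm => bef_mono (hne j) h hm) (fun i j h => h2 i j h.disjoint)
  have h6 : ex k U (fun S _ => if S = Y₀ ∨ S = U \ Y₀ then 0 else (k : ℤ) ^ 2) =
      (k : ℤ) ^ 2 * ((2 * k).choose k - 2) * n.factorial := by
    unfold ex
    simp only [sum_const, card_univ, Fintype.card_perm, Fintype.card_fin, nsmul_eq_mul]
    rw [← mul_sum, sum_ite, sum_const_zero, zero_add, sum_const, nsmul_eq_mul]
    have h7 : ((powersetCard k U).filter (fun S => S = Y₀ ∨ S = U \ Y₀)).card = 2 := by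
      rw [card_eq_two]
      refine ⟨Y₀, U \ Y₀, fun h => ?_, ?_⟩
      · obtain ⟨x, hx⟩ := card_pos.1 (by omega : 0 < Y₀.card)
        exact (mem_sdiff.1 (h ▸ hx)).2 hx
      · ext S
        simp only [mem_filter, mem_powersetCard, mem_insert, mem_singleton]
        constructor
        · exact fun h => h.2
        · rintro (rfl | rfl)
          · exact ⟨⟨hYU, hY⟩, Or.inl rfl⟩
          · exact ⟨⟨sdiff_subset, by rw [card_sdiff_of_subset hYU]; omega⟩, Or.inr rfl⟩
    have h8 := card_filter_add_card_filter_not (s := powersetCard k U)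
      (fun S => S = Y₀ ∨ S = U \ Y₀)
    rw [h7, card_powersetCard, hU] at h8
    rw [← h8]
    push_cast
    ring
  have hF : (0 : ℤ) < n.factorial := by exact_mod_cast n.factorial_pos
  apply le_of_mul_le_mul_right _ hF
  simp only [sum_const, card_univ, Fintype.card_fin, nsmul_eq_mul, mul_one] at h3
  linarith only [h5, h6, h3]

end Pool.Agent.Work.MP_0f7bbd_co
end

-- merged part: Pool.Agent.Work.MP_0f7bbd_co.Reduce
section
/-!
Reduction of the upper bound to the main inequality.
-/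

namespace Pool.Agent.Work.MP_0f7bbd_co

open Finset

variable {n k : ℕ} {ι : Type*} [DecidableEq ι] [Fintype ι]

theorem card_meet_le (X : ι → Finset (Fin n)) (T : Finset ι) (D : ℕ)
    (hD : ∀ p, (T.filter (fun j => p ∈ X j)).card ≤ D) (A : Finset (Fin n)) :
    (T.filter (fun j => ¬ Disjoint A (X j))).card ≤ A.card * D := by
  refine le_trans (card_le_card ?_) (card_biUnion_le_card_mul A
    (fun p => T.filter (fun j => p ∈ X j)) D (fun p _ => hD p))
  intro j hj
  rw [mem_filter, not_disjoint_iff] at hj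
  obtain ⟨p, h1, h2⟩ := hj.2
  exact mem_biUnion.2 ⟨p, h1, mem_filter.2 ⟨hj.1, h2⟩⟩

theorem deg_dichotomy (hk : 1 ≤ k) (X Y : ι → Finset (Fin n)) (hX : ∀ i, (X i).card = k)
    (hY : ∀ i, (Y i).card = k)
    (hx : ∀ i j, i ≠ j → (Disjoint (X i) (X j) ↔ ¬ Disjoint (Y i) (Y j))) :
    (∀ p, (univ.filter (fun j => p ∈ X j)).card ≤ 2 * k) ∨
      (∀ p, (univ.filter (fun j => p ∈ Y j)).card ≤ 2 * k) := by
  by_contra hcon
  push Not at hcon
  obtain ⟨⟨p, hp⟩, ⟨q, hq⟩⟩ := hcon
  set S := univ.filter (fun j => p ∈ X j) with hS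
  set T := univ.filter (fun j => q ∈ Y j) with hT
  have h1 : ∀ s, (T.filter (fun t => ¬ Disjoint (X s) (X t))).card ≤ k := by
    intro s
    have := card_meet_le X T 1 (fun r => ?_) (X s)
    · rwa [hX, mul_one] at this
    · rw [card_le_one]
      intro a ha b hb
      simp only [hT, mem_filter, mem_univ, true_and] at ha hb
      by_contra hab
      exact disjoint_left.1 ((hx a b hab).2 (not_disjoint_iff.2 ⟨q, ha.1, hb.1⟩)) ha.2 hb.2
  have h2 : ∀ t, (S.filter (fun s => ¬ Disjoint (Y t) (Y s))).card ≤ k := by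
    intro t
    have := card_meet_le Y S 1 (fun r => ?_) (Y t)
    · rwa [hY, mul_one] at this
    · rw [card_le_one]
      intro a ha b hb
      simp only [hS, mem_filter, mem_univ, true_and] at ha hb
      by_contra hab
      have h3 : ¬ Disjoint (X a) (X b) := not_disjoint_iff.2 ⟨p, ha.1, hb.1⟩
      rw [hx a b hab, not_not] at h3
      exact disjoint_left.1 h3 ha.2 hb.2
  have h3 : ∑ s ∈ S, ∑ _t ∈ T, 1 ≤ ∑ s ∈ S, ∑ t ∈ T,
      ((if ¬ Disjoint (X s) (X t) then 1 else 0) + (if ¬ Disjoint (Y t) (Y s) then 1 else 0)) := by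
    refine sum_le_sum fun s _ => sum_le_sum fun t _ => ?_
    by_cases h : Disjoint (X s) (X t)
    · have hst : s ≠ t := by
        rintro rfl
        have := hX s
        rw [disjoint_self, bot_eq_empty] at h
        rw [h] at this; simp at this; omega
      have := (hx s t hst).1 h
      rw [disjoint_comm] at this
      simp [this]
    · simp [h]
  simp only [sum_add_distrib] at h3
  rw [sum_comm (s := S) (t := T) (f := fun s t => if ¬ Disjoint (Y t) (Y s) then 1 else 0)] at h3
  simp only [← card_filter, sum_const, smul_eq_mul, mul_one] at h3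
  have h4 := sum_le_card_nsmul S _ k (fun s _ => h1 s)
  have h5 := sum_le_card_nsmul T _ k (fun t _ => h2 t)
  simp only [smul_eq_mul] at h4 h5
  obtain ⟨a, ha⟩ : ∃ a, S.card = 2 * k + 1 + a := ⟨S.card - (2 * k + 1), by omega⟩
  obtain ⟨b, hb⟩ : ∃ b, T.card = 2 * k + 1 + b := ⟨T.card - (2 * k + 1), by omega⟩
  rw [ha, hb] at h3
  rw [ha] at h4
  rw [hb] at h5
  clear * - a b k ι S n X T Y hk h4 h5 h3
  linarith only [hk, h4, h5, h3, Nat.zero_le (a * b), Nat.zero_le (a * k), Nat.zero_le (b * k)]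

theorem exists_isolated (hk : 1 ≤ k) (X Y : ι → Finset (Fin n)) (hX : ∀ i, (X i).card = k)
    (hY : ∀ i, (Y i).card = k)
    (hx : ∀ i j, i ≠ j → (Disjoint (X i) (X j) ↔ ¬ Disjoint (Y i) (Y j)))
    (hD : ∀ p, (univ.filter (fun j => p ∈ X j)).card ≤ 2 * k)
    (hN : k * (2 * k) * (2 * k).choose k < Fintype.card ι) :
    ∃ i₀, ∀ j, ¬ Disjoint (Y j) (Y i₀) := by
  by_contra hcon
  push Not at hcon
  choose ν hν using hcon
  have hne : ∀ i, (Y i).Nonempty := fun i => card_pos.1 (by rw [hY]; omega)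
  have h1 : ∀ σ : Equiv.Perm (Fin n), (univ.filter (fun j =>
      Bef (fun x => (σ x).val) (Y j) (Y (ν j)))).card ≤ k * (2 * k) := by
    intro σ
    rcases (univ.filter (fun j =>
      Bef (fun x => (σ x).val) (Y j) (Y (ν j)))).eq_empty_or_nonempty with h | h
    · rw [h]; simp
    obtain ⟨j₀, -, hmax⟩ := exists_max_image _ (fun j => mn (fun x => (σ x).val) (Y (ν j))) h
    refine le_trans (card_le_card ?_) ((card_meet_le X univ (2 * k) hD (X (ν j₀))).trans
      (by rw [hX]))
    intro j hj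
    have h2 := (bef_mono (hne _) (mem_filter.1 hj).2 (hmax j hj)).disjoint
    have h3 : j ≠ ν j₀ := by
      rintro rfl
      rw [disjoint_self, bot_eq_empty] at h2
      exact (hne _).ne_empty h2
    refine mem_filter.2 ⟨mem_univ _, fun h4 => ?_⟩
    exact (hx j _ h3).1 h4.symm h2
  have h2 : ∑ j, cnt (Y j) (Y (ν j)) ≤ n.factorial * (k * (2 * k)) := by
    unfold cnt
    simp only [card_filter] at h1 ⊢
    rw [sum_comm]
    refine (sum_le_card_nsmul _ _ _ (fun σ _ => h1 σ)).trans ?_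
    simp [Fintype.card_perm]
  have h3 : (∑ j, cnt (Y j) (Y (ν j))) * (2 * k).choose k = n.factorial * Fintype.card ι := by
    rw [sum_mul, sum_congr rfl (g := fun _ => n.factorial)]
    · simp [mul_comm]
    · intro j _
      have := cnt_mul_choose (hν j).symm
      rwa [hY, hY, ← two_mul] at this
  have h4 := Nat.mul_le_mul_right ((2 * k).choose k) h2
  rw [h3, mul_assoc] at h4
  have := Nat.le_of_mul_le_mul_left h4 n.factorial_pos
  omega

theorem upper_aux (hk : 1 ≤ k) (hn : 2 * k ≤ n) (X Y : ι → Finset (Fin n))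
    (hX : ∀ i, (X i).card = k) (hY : ∀ i, (Y i).card = k)
    (hx : ∀ i j, i ≠ j → (Disjoint (X i) (X j) ↔ ¬ Disjoint (Y i) (Y j)))
    (hD : ∀ p, (univ.filter (fun j => p ∈ X j)).card ≤ 2 * k)
    (hN : k * (2 * k) * (2 * k).choose k < Fintype.card ι) :
    2 * ((Fintype.card ι : ℤ) * k - n) ≤ (k : ℤ) ^ 2 * ((2 * k).choose k - 2) := by
  obtain ⟨i₀, hi₀⟩ := exists_isolated hk X Y hX hY hx hD hN
  have hC : 0 < (2 * k).choose k := Nat.choose_pos (by omega)
  refine main_ineq hk hn ?_ X Y hX hY (fun i j hij h => ?_) (fun i j h => ?_) (Y i₀) (hY i₀)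
    (fun i => not_disjoint_iff_nonempty_inter.1 (hi₀ i))
  · have : k * 1 * 1 ≤ k * (2 * k) * (2 * k).choose k :=
      Nat.mul_le_mul (Nat.mul_le_mul_left _ (by omega)) hC
    omega
  · by_contra h2
    exact not_disjoint_iff_nonempty_inter.2 h ((hx i j hij).2 h2)
  · have hij : i ≠ j := by
      rintro rfl
      have := hY i
      rw [disjoint_self, bot_eq_empty] at h
      rw [h] at this; simp at this; omega
    exact not_disjoint_iff_nonempty_inter.1 fun h2 => (hx i j hij).1 h2 h

theorem upper (hk : 1 ≤ k) (hn : 2 * k ≤ n) (X Y : ι → Finset (Fin n))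
    (hX : ∀ i, (X i).card = k) (hY : ∀ i, (Y i).card = k)
    (hx : ∀ i j, i ≠ j → (Disjoint (X i) (X j) ↔ ¬ Disjoint (Y i) (Y j)))
    (hN : k * (2 * k) * (2 * k).choose k < Fintype.card ι) :
    2 * ((Fintype.card ι : ℤ) * k - n) ≤ (k : ℤ) ^ 2 * ((2 * k).choose k - 2) := by
  rcases deg_dichotomy hk X Y hX hY hx with h | h
  · exact upper_aux hk hn X Y hX hY hx h hN
  · exact upper_aux hk hn Y X hY hX (fun i j hij => by rw [hx i j hij, not_not]) h hN

end Pool.Agent.Work.MP_0f7bbd_co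
end

-- merged part: Pool.Agent.Work.MP_0f7bbd_co.Final
section
/-!
The construction and the final statement.
-/

namespace Pool.Agent.Work.MP_0f7bbd_co

open Finset

variable {n k : ℕ}

theorem adj_iff (hk : 1 ≤ k) (u v : {X : Finset (Fin n) // X.card = k} × {X : Finset (Fin n) // X.card = k}) :
    (xorProd (kneser n k) (kneser n k)).Adj u v ↔
      (Disjoint u.1.1 v.1.1 ↔ ¬ Disjoint u.2.1 v.2.1) := by
  have h : ∀ a b : {X : Finset (Fin n) // X.card = k}, (kneser n k).Adj a b ↔ Disjoint a.1 b.1 := by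
    intro a b
    refine ⟨fun h => h.2, fun h => ⟨?_, h⟩⟩
    rintro rfl
    have := a.2
    rw [disjoint_self, bot_eq_empty] at h
    rw [h] at this; simp at this; omega
  change ((kneser n k).Adj u.1 v.1 ∧ ¬ (kneser n k).Adj u.2 v.2) ∨
    ((kneser n k).Adj u.2 v.2 ∧ ¬ (kneser n k).Adj u.1 v.1) ↔ _
  rw [h, h]
  tauto

theorem card_le_cliqueNum (hk : 1 ≤ k) {ι : Type*} [Fintype ι] (X Y : ι → Finset (Fin n))
    (hX : ∀ i, (X i).card = k) (hY : ∀ i, (Y i).card = k)
    (hx : ∀ i j, i ≠ j → (Disjoint (X i) (X j) ↔ ¬ Disjoint (Y i) (Y j))) :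
    Fintype.card ι ≤ (xorProd (kneser n k) (kneser n k)).cliqueNum := by
  classical
  let f : ι → {X : Finset (Fin n) // X.card = k} × {X : Finset (Fin n) // X.card = k} :=
    fun i => (⟨X i, hX i⟩, ⟨Y i, hY i⟩)
  have hadj : ∀ i j, i ≠ j → (xorProd (kneser n k) (kneser n k)).Adj (f i) (f j) :=
    fun i j hij => (adj_iff hk _ _).2 (hx i j hij)
  have hinj : Function.Injective f := by
    intro i j h
    by_contra hij
    exact (hadj i j hij).ne h
  have hcl : (xorProd (kneser n k) (kneser n k)).IsClique (univ.image f : Finset _) := by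
    intro a ha b hb hab
    simp only [coe_image, coe_univ, Set.image_univ, Set.mem_range] at ha hb
    obtain ⟨i, rfl⟩ := ha
    obtain ⟨j, rfl⟩ := hb
    exact hadj i j (fun h => hab (h ▸ rfl))
  have := hcl.card_le_cliqueNum
  rwa [card_image_of_injective _ hinj, card_univ] at this

theorem lower (hk : 1 ≤ k) (hn : 2 * k ≤ n) (h m : ℕ) (hh : h + 1 = (2 * k - 1).choose (k - 1))
    (hm : (h * k + m) * k ≤ n) :
    h * k + m + h * k ≤ (xorProd (kneser n k) (kneser n k)).cliqueNum := by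
  classical
  obtain ⟨S, -, hS⟩ := exists_subset_card_eq (s := (univ : Finset (Fin n))) (n := 2 * k)
    (by simpa using hn)
  obtain ⟨z, hz⟩ := card_pos.1 (by omega : 0 < S.card)
  have hc := card_filter_powersetCard_subset {z} S k (singleton_subset_iff.2 hz) (by simpa using hk)
  rw [hS, card_singleton, ← hh] at hc
  let e := (equivFinOfCardEq hc).symm
  let A : Fin (h + 1) → Finset (Fin n) := fun s => (e s).1
  have hA : ∀ s, A s ⊆ S ∧ (A s).card = k ∧ z ∈ A s := by
    intro s
    have := (e s).2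
    simp only [mem_filter, mem_powersetCard, singleton_subset_iff] at this
    exact ⟨this.1.1, this.1.2, this.2⟩
  have hAinj : Function.Injective A := Subtype.val_injective.comp e.injective
  obtain ⟨φ⟩ : Nonempty ((((Fin h × Fin k) ⊕ Fin m) × Fin k) ↪ Fin n) :=
    Function.Embedding.nonempty_of_card_le (by clear * - h k m n hm; simpa using hm)
  let τ : (Fin h × Fin k) ⊕ Fin m → Fin (h + 1) := Sum.elim (fun x => x.1.succ) (fun _ => 0)
  let X : ((Fin h × Fin k) ⊕ Fin m) ⊕ (Fin h × Fin k) → Finset (Fin n) :=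
    Sum.elim (fun a => univ.image (fun c => φ (a, c)))
      (fun x => univ.image (fun r => φ (Sum.inl (x.1, r), x.2)))
  let Y : ((Fin h × Fin k) ⊕ Fin m) ⊕ (Fin h × Fin k) → Finset (Fin n) :=
    Sum.elim (fun a => A (τ a)) (fun x => S \ A x.1.succ)
  have hcross : ∀ a x, Disjoint (X (Sum.inl a)) (X (Sum.inr x)) ↔
      ¬ Disjoint (Y (Sum.inl a)) (Y (Sum.inr x)) := by
    intro a x
    have h1 : Disjoint (Y (Sum.inl a)) (Y (Sum.inr x)) ↔ τ a = x.1.succ := by
      constructor
      · intro hd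
        apply hAinj
        apply eq_of_subset_of_card_le _ (by rw [(hA _).2.1, (hA _).2.1])
        intro y hy
        by_contra hy'
        exact disjoint_left.1 hd hy (mem_sdiff.2 ⟨(hA _).1 hy, hy'⟩)
      · intro ha
        simp only [Y, Sum.elim_inl, Sum.elim_inr, ha]
        exact disjoint_sdiff
    rw [h1]
    simp only [X, Sum.elim_inl, Sum.elim_inr, disjoint_left, mem_image, mem_univ, true_and]
    constructor
    · intro hd ha
      rcases a with ⟨s, r⟩ | a
      · have : s = x.1 := Fin.succ_injective _ ha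
        subst this
        exact hd ⟨x.2, rfl⟩ ⟨r, rfl⟩
      · exact (Fin.succ_ne_zero _) ha.symm
    · rintro ha _ ⟨c, rfl⟩ ⟨r, hr⟩
      have := φ.injective hr
      rw [Prod.mk.injEq] at this
      apply ha
      rw [← this.1]
      rfl
  have := card_le_cliqueNum hk X Y ?_ ?_ ?_
  · simpa using this
  · rintro (a | x)
    · simp only [X, Sum.elim_inl]
      rw [card_image_of_injective _ (fun c c' hc => (Prod.mk.inj (φ.injective hc)).2)]
      simp
    · simp only [X, Sum.elim_inr]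
      rw [card_image_of_injective _ (fun c c' hc =>
        (Prod.mk.inj (Sum.inl.inj (Prod.mk.inj (φ.injective hc)).1)).2)]
      simp
  · rintro (a | x)
    · exact (hA _).2.1
    · simp only [Y, Sum.elim_inr]
      rw [card_sdiff_of_subset (hA _).1, (hA _).2.1]; omega
  · rintro (a | x) (b | y) hne
    · refine iff_of_true ?_ (not_disjoint_iff.2 ⟨z, (hA _).2.2, (hA _).2.2⟩)
      simp only [X, Sum.elim_inl, disjoint_left, mem_image, mem_univ, true_and]
      rintro _ ⟨c, rfl⟩ ⟨c', hc⟩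
      exact hne (congrArg Sum.inl (Prod.mk.inj (φ.injective hc)).1.symm)
    · exact hcross a y
    · rw [disjoint_comm, disjoint_comm (a := Y _)]
      exact hcross b x
    · refine iff_of_true ?_ ?_
      · simp only [X, Sum.elim_inr, disjoint_left, mem_image, mem_univ, true_and]
        rintro _ ⟨c, rfl⟩ ⟨c', hc⟩
        have h1 := Prod.mk.inj (φ.injective hc)
        have h2 := (Prod.mk.inj (Sum.inl.inj h1.1)).1
        exact hne (congrArg Sum.inr (Prod.ext h2.symm h1.2.symm))
      · simp only [Y, Sum.elim_inr]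
        intro hd
        have h1 : S \ A x.1.succ ∪ S \ A y.1.succ ⊆ S.erase z := by
          intro w hw
          rw [mem_erase]
          rcases mem_union.1 hw with hw | hw
          · exact ⟨fun e => (mem_sdiff.1 hw).2 (e ▸ (hA _).2.2), (mem_sdiff.1 hw).1⟩
          · exact ⟨fun e => (mem_sdiff.1 hw).2 (e ▸ (hA _).2.2), (mem_sdiff.1 hw).1⟩
        have h2 := card_le_card h1
        rw [card_union_of_disjoint hd, card_sdiff_of_subset (hA _).1,
          card_sdiff_of_subset (hA _).1, (hA _).2.1, (hA _).2.1, card_erase_of_mem hz] at h2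
        omega

theorem final (k : ℕ) (hk : 1 ≤ k) : ∃ n₀ : ℕ, ∀ n, n₀ ≤ n →
    (xorProd (kneser n k) (kneser n k)).cliqueNum = n / k + (k * (2 * k).choose k / 2 - k) := by
  obtain ⟨h, hh⟩ : ∃ h, h + 1 = (2 * k - 1).choose (k - 1) :=
    ⟨(2 * k - 1).choose (k - 1) - 1, by
      have : 0 < (2 * k - 1).choose (k - 1) := Nat.choose_pos (by omega)
      omega⟩
  have hC : (2 * k).choose k = 2 * (h + 1) := by
    obtain ⟨j, rfl⟩ : ∃ j, k = j + 1 := ⟨k - 1, by omega⟩
    have e1 : 2 * (j + 1) - 1 = 2 * j + 1 := by omega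
    have e2 : 2 * (j + 1) = 2 * j + 1 + 1 := by omega
    rw [hh, e1, e2, Nat.choose_succ_succ', Nat.add_sub_cancel, Nat.choose_symm_half]
    omega
  have hg : k * (2 * k).choose k / 2 - k = h * k := by
    rw [hC, mul_left_comm, Nat.mul_div_cancel_left _ (by norm_num : 0 < 2), mul_add, mul_one,
      Nat.add_sub_cancel, mul_comm]
  refine ⟨(k * (2 * k) * (2 * k).choose k + h * k + 2) * k, fun n hn => ?_⟩
  rw [hg]
  have hq : k * (2 * k) * (2 * k).choose k + h * k + 2 ≤ n / k := (Nat.le_div_iff_mul_le hk).2 hn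
  have hn2 : 2 * k ≤ n := le_trans (Nat.mul_le_mul_right k (by omega)) hn
  apply le_antisymm
  · by_contra hcon
    push Not at hcon
    obtain ⟨s, hs⟩ := (xorProd (kneser n k) (kneser n k)).exists_isNClique_cliqueNum
    have h1 := upper (ι := s) hk hn2 (fun i => i.1.1.1) (fun i => i.1.2.1) (fun i => i.1.1.2)
      (fun i => i.1.2.2) (fun i j hij => (adj_iff hk _ _).1
        (hs.isClique i.2 j.2 (fun e => hij (Subtype.ext e)))) (by
          rw [Fintype.card_coe, hs.card_eq]; omega)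
    rw [Fintype.card_coe, hs.card_eq, hC] at h1
    have h2 := Nat.div_add_mod n k
    have h3 := Nat.mod_lt n hk
    generalize (xorProd (kneser n k) (kneser n k)).cliqueNum = N at *
    have h4 : (n / k + h * k + 1) * k ≤ N * k := Nat.mul_le_mul_right k hcon
    generalize n / k = q at *
    generalize n % k = r at *
    subst h2
    push_cast at h1
    have h5 : ((q : ℤ) + h * k + 1) * k ≤ N * k := by exact_mod_cast h4
    have h6 : (r : ℤ) < k := by exact_mod_cast h3
    clear * - q h k N r h4 h3 h1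
    linarith only [h4, h3, h1]
  · have := lower hk hn2 h (n / k - h * k) hh (by
      rw [Nat.add_sub_cancel' (by omega)]; exact Nat.div_mul_le_self n k)
    rwa [Nat.add_sub_cancel' (by omega)] at this

end Pool.Agent.Work.MP_0f7bbd_co
end
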